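import Pool.Agent.H35.RS.ConstFinal3

/-!
# MP_de5306_an: random substitutions of constant length

Let `ϑ` be a primitive, compatible random substitution of constant length which is not
recognisable and whose subshift `X_ϑ` is aperiodic.  If the alphabet has at most three letters, or
if no word lies in `ϑ^n(a)`, `ϑ^n(b)`, `ϑ^n(c)` for three different letters, or if for some `n ≥ 1`
and some letter `b` every word `v` of `ϑ^n(b)` has a twin (another word `v'` which lies in the same
sets `ϑ^n(a)` as `v`), then `Aut(X_ϑ)` is not residually finite.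
-/

namespace Pool.Agent.Results.MP_de5306_an.ConstantLength

open H35.RS

theorem result {A : Type} [Finite A] [TopologicalSpace A] [DiscreteTopology A]
    (ϑ : A → Finset (List A)) (L : ℕ) (hϑ : IsRandomSub ϑ)
    (hlen : ∀ a, ∀ v ∈ ϑ a, v.length = L)
    (hcompat : Compatible ϑ) (hprim : Primitive ϑ) (hnr : ¬ Recognisable ϑ)
    (hap : Aperiodic (subshift ϑ))
    (hcase : Nat.card A ≤ 3 ∨
      (∀ (n : ℕ) (v : List A) (a b c : A), v ∈ pow ϑ n a → v ∈ pow ϑ n b → v ∈ pow ϑ n c →
        a = b ∨ a = c ∨ b = c) ∨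
      ∃ n : ℕ, 1 ≤ n ∧ ∃ b : A, ∀ v ∈ pow ϑ n b, ∃ v' : List A, v' ≠ v ∧
        ∀ a : A, v ∈ pow ϑ n a ↔ v' ∈ pow ϑ n a) :
    ¬ Group.ResiduallyFinite (autRS ϑ) :=
  Up.const_length_not_rf3 ϑ L hϑ hlen hcompat hprim hnr hap hcase

end Pool.Agent.Results.MP_de5306_an.ConstantLength
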