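import Pool.Agent.H5.RS.OS9
import Pool.Agent.H5.RS.OS9a

/-!
# MP_de5306_an: random substitutions with a one-sided unique desubstitution

Let `ϑ` be a primitive, compatible random substitution on a finite alphabet (inflation words of
any lengths) which is not recognisable and whose subshift `X_ϑ` is aperiodic.  If two
desubstitutions of the same sequence which share a cut agree to the right of it (or: to the left
of it), then `Aut(X_ϑ)` is not residually finite.  This holds in particular if no word of `ϑ(a)`
is a prefix (or: a suffix) of a word of `ϑ(b)` for `a ≠ b`.  It is also enough that some legal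
pattern forces a cut wherever it occurs and determines the desubstitution on one side of it.
-/

namespace Pool.Agent.Results.MP_de5306_an.OneSided

open H35.RS H35.RS.OS

theorem result {A : Type} [Finite A] [TopologicalSpace A] [DiscreteTopology A]
    (ϑ : A → Finset (List A)) (hϑ : IsRandomSub ϑ)
    (hcompat : Compatible ϑ) (hprim : Primitive ϑ) (hnr : ¬ Recognisable ϑ)
    (hap : Aperiodic (subshift ϑ))
    (hside : AgreeRight ϑ ∨ AgreeLeft ϑ ∨ SyncRight ϑ ∨ SyncLeft ϑ ∨
      (∀ a b, a ≠ b → ∀ u ∈ ϑ a, ∀ v ∈ ϑ b, ¬ u <+: v) ∨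
      (∀ a b, a ≠ b → ∀ u ∈ ϑ a, ∀ v ∈ ϑ b, ¬ u <:+ v)) :
    ¬ Group.ResiduallyFinite (autRS ϑ) := by
  refine one_sided_not_rf ϑ hϑ hcompat hprim hnr hap ?_
  rcases hside with h | h | h | h | h | h
  · exact Or.inl h
  · exact Or.inr (Or.inl h)
  · exact Or.inr (Or.inr (Or.inl h))
  · exact Or.inr (Or.inr (Or.inr h))
  · exact Or.inl (agreeRight_of_prefix hϑ hcompat h)
  · exact Or.inr (Or.inl (agreeLeft_of_suffix hϑ hcompat h))

end Pool.Agent.Results.MP_de5306_an.OneSided
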