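import Pool.Agent.H35.RF.Final

/-!
# MP_de5306_an: a non-recognisable aperiodic random substitution with residually finite `Aut`

There is a primitive and compatible random substitution `ϑ` (on ten letters, of constant length
thirteen) which is not recognisable, whose subshift `X_ϑ` is aperiodic and for which the group
`Aut(X_ϑ)` is residually finite.  This answers the question in the affirmative.
-/

namespace Pool.Agent.Results.MP_de5306_an.PositiveAnswer

open H35.RS

theorem result : ∃ (A : Type) (_ : Finite A) (_ : TopologicalSpace A) (_ : DiscreteTopology A)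
    (ϑ : A → Finset (List A)),
    (∀ a, ∀ v ∈ ϑ a, v.length = 13) ∧
    IsRandomSub ϑ ∧ Primitive ϑ ∧ Compatible ϑ ∧ ¬ Recognisable ϑ ∧
    (subshift ϑ).Nonempty ∧ Aperiodic (subshift ϑ) ∧ Group.ResiduallyFinite (autRS ϑ) := by
  letI : TopologicalSpace RF.Lt := ⊥
  haveI : DiscreteTopology RF.Lt := ⟨rfl⟩
  exact ⟨RF.Lt, inferInstance, ⊥, ⟨rfl⟩, RF.th, RF.th_len, RF.th_random, RF.th_primitive,
    RF.th_compatible, RF.th_not_recognisable, ⟨RF.x0, RF.x0_mem⟩, RF.X_aperiodic, RF.th_rf⟩

end Pool.Agent.Results.MP_de5306_an.PositiveAnswer
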