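import Pool.Agent.H35.RS.NmFinal

/-!
# MP_de5306_an: the random noble means substitutions

For every `m ≥ 1` the random noble means substitution
`a ↦ {a^(m-i) b a^i : 0 ≤ i ≤ m}`, `b ↦ {a}` is primitive, compatible, not recognisable, its
subshift is aperiodic, and the group `Aut(X_ϑ)` is not residually finite.
-/

namespace Pool.Agent.Results.MP_de5306_an.RandomNobleMeans

open H35.RS H35.RS.Nm

theorem result (m : ℕ) (hm : 1 ≤ m) :
    IsRandomSub (nm m) ∧ Primitive (nm m) ∧ Compatible (nm m) ∧ ¬ Recognisable (nm m) ∧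
      Aperiodic (subshift (nm m)) ∧ ¬ Group.ResiduallyFinite (autRS (nm m)) :=
  ⟨isRandomSub_nm m, nm_primitive hm, nm_compatible m, nm_not_recognisable hm, nm_aperiodic hm,
    nm_not_rf hm⟩

end Pool.Agent.Results.MP_de5306_an.RandomNobleMeans
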